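import Mathlib
import Pool.Agent.Helper31.LQ.Goals

open MeasureTheory Set
open scoped ENNReal Matrix MatrixOrder
open Pool.Agent.Helper47.AQ Pool.Agent.Helper31.LQ

noncomputable section

namespace Pool.Agent.Helper25.LQ

variable {n d : ℕ}

/-- The matrix with the columns `Y l`. -/
def cmat (Y : Fin n → Fin d → ℝ) : Matrix (Fin d) (Fin n) ℝ := Matrix.of fun a l => Y l a

theorem grm_eq (Q : Matrix (Fin n) (Fin n) ℝ) (Y : Fin n → Fin d → ℝ) :
    grm Q Y = cmat Y * Q * (cmat Y)ᵀ := by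
  ext a b
  simp only [grm, cmat, Matrix.of_apply, Matrix.mul_apply, Matrix.transpose_apply, Finset.sum_mul]
  exact Finset.sum_comm

theorem cmat_mulVec (g : Matrix (Fin d) (Fin d) ℝ) (Y : Fin n → Fin d → ℝ) :
    cmat (fun l => g *ᵥ Y l) = g * cmat Y := by
  ext a l
  simp [cmat, Matrix.mul_apply, Matrix.mulVec, dotProduct]

theorem psd {Q : Matrix (Fin n) (Fin n) ℝ} (hQ : Q.PosDef) (Y : Fin n → Fin d → ℝ) :
    (grm Q Y).PosSemidef := by
  rw [grm_eq]
  have := hQ.posSemidef.mul_mul_conjTranspose_same (cmat Y)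
  rwa [Matrix.conjTranspose_eq_transpose_of_trivial] at this

theorem exR {Q : Matrix (Fin n) (Fin n) ℝ} (hQ : Q.PosDef) (Y : Fin n → Fin d → ℝ) :
    ∃ R : Matrix (Fin d) (Fin d) ℝ, grm Q Y = R * Rᵀ := by
  obtain ⟨B, hB⟩ := CStarAlgebra.nonneg_iff_eq_star_mul_self.mp (psd hQ Y).nonneg
  refine ⟨Bᵀ, ?_⟩
  rw [Matrix.transpose_transpose, hB, Matrix.star_eq_conjTranspose,
    Matrix.conjTranspose_eq_transpose_of_trivial]

theorem exv {Q : Matrix (Fin n) (Fin n) ℝ} (hQ : Q.PosDef) (Y : Fin n → Fin d → ℝ)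
    (h : (grm Q Y).det = 0) : ∃ v : Fin d → ℝ, v ≠ 0 ∧ (cmat Y)ᵀ *ᵥ v = 0 := by
  obtain ⟨v, hv, h1⟩ := Matrix.exists_mulVec_eq_zero_iff.2 h
  refine ⟨v, hv, ?_⟩
  by_contra hne
  have h2 := hQ.dotProduct_mulVec_pos hne
  have h3 : star ((cmat Y)ᵀ *ᵥ v) ⬝ᵥ (Q *ᵥ ((cmat Y)ᵀ *ᵥ v)) = v ⬝ᵥ (grm Q Y *ᵥ v) := by
    rw [grm_eq, star_trivial, ← Matrix.mulVec_mulVec, ← Matrix.mulVec_mulVec]
    rw [Matrix.dotProduct_mulVec v, Matrix.mulVec_transpose]
  rw [h3, h1, dotProduct_zero] at h2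
  exact lt_irrefl _ h2

theorem gGRM : Pool.Agent.Helper31.LQ.GRM := by
  intro n d Q hQ Y
  refine ⟨?_, ?_, ?_, ?_, ?_, ?_⟩
  · obtain ⟨R, hR⟩ := exR hQ Y
    refine ⟨R, hR, ?_⟩
    rw [hR, Matrix.det_mul, Matrix.det_transpose, Real.sqrt_mul_self_eq_abs]
  · obtain ⟨R, hR⟩ := exR hQ Y
    rw [hR, Matrix.det_mul, Matrix.det_transpose]
    exact mul_self_nonneg _
  · intro g
    rw [grm_eq, grm_eq, cmat_mulVec, Matrix.transpose_mul]
    simp only [Matrix.mul_assoc]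
  · intro Q' _ h
    obtain ⟨v, hv, h1⟩ := exv hQ Y h
    apply Matrix.exists_mulVec_eq_zero_iff.1
    refine ⟨v, hv, ?_⟩
    rw [grm_eq, ← Matrix.mulVec_mulVec, h1, Matrix.mulVec_zero]
  · intro h K
    obtain ⟨v, hv, h1⟩ := exv hQ Y h
    let f : (Fin d → ℝ) →ₗ[ℝ] ℝ :=
      { toFun := fun z => v ⬝ᵥ z
        map_add' := fun a b => dotProduct_add _ _ _
        map_smul' := fun c a => by simp [dotProduct_smul] }
    have hf : LinearMap.ker f ≠ ⊤ := by
      intro h2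
      have : v ∈ LinearMap.ker f := by rw [h2]; trivial
      rw [LinearMap.mem_ker] at this
      exact hv (dotProduct_self_eq_zero.1 this)
    have h3 : volume ((LinearMap.ker f : Submodule ℝ (Fin d → ℝ)) : Set (Fin d → ℝ)) = 0 :=
      Measure.addHaar_submodule volume _ hf
    refine measure_mono_null ?_ h3
    rintro _ ⟨x, -, rfl⟩
    change v ⬝ᵥ lin Y x = 0
    have h4 : v ⬝ᵥ lin Y x = x ⬝ᵥ ((cmat Y)ᵀ *ᵥ v) := by
      simp only [dotProduct, lin, Matrix.mulVec, cmat, Matrix.transpose_apply, Matrix.of_apply,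
        Finset.mul_sum]
      rw [Finset.sum_comm]
      refine Finset.sum_congr rfl fun l _ => Finset.sum_congr rfl fun c _ => ?_
      ring
    rw [h4, h1, dotProduct_zero]
  · have h1 : Continuous fun Y : Fin n → Fin d → ℝ => grm Q Y := by
      refine continuous_matrix fun a b => ?_
      simp only [grm, Matrix.of_apply]
      fun_prop
    have h2 : Continuous fun Y : Fin n → Fin d → ℝ =>
        Real.sqrt (grm Q Y).det ^ n * Real.exp (-(grm Q Y).trace / 2) := by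
      refine Continuous.mul ((Real.continuous_sqrt.comp h1.matrix_det).pow n)
        (Real.continuous_exp.comp ?_)
      exact (h1.matrix_trace.neg).div_const 2
    exact h2.measurable.ennreal_ofReal

end Pool.Agent.Helper25.LQ
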